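import Pool.Agent.R253.UM.CC

/-!
# MP_f1e800_an: the p-umbel inequality for Heisenberg groups over (beta_p) spaces
-/

open Filter Topology Set MeasureTheory R253.UM
open scoped ENNReal NNReal

namespace Pool.Agent.Results.MP_f1e800_an.UmbelHeisenberg

/-- A (quasi-)metric `d` satisfies the `p`-umbel inequality. -/
def UmbelIneq (p : ℝ) {M : Type*} (d : M → M → ℝ≥0) : Prop :=
  ∃ K : ℝ≥0, 0 < K ∧ ∀ (w z : M) (x : ℕ → M),
    (1 / 2 : ℝ≥0∞) ^ p * (⨅ n, (d w (x n) : ℝ≥0∞) ^ p)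
      + (1 / (K : ℝ≥0∞)) ^ p * (⨅ i, liminf (fun j => (d (x i) (x j) : ℝ≥0∞) ^ p) atTop)
      ≤ (1 / 2 : ℝ≥0∞) * (d w z : ℝ≥0∞) ^ p + (1 / 2 : ℝ≥0∞) * ⨆ n, (d (x n) z : ℝ≥0∞) ^ p

/-- For every real Banach space `X` with property (beta_p), `1 < p < ∞`, and every nonzero
antisymmetric bounded bilinear form `ω` on `X`, the Heisenberg group `H(ω) = X × ℝ` with its
Carnot-Caratheodory metric admits an equivalent quasi-metric with the `p`-umbel inequality. -/
theorem result {p : ℝ} (hp : 1 < p) (X : Type*) [NormedAddCommGroup X] [NormedSpace ℝ X]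
    [CompleteSpace X] (hX : PropertyBeta p X) (ω : X →L[ℝ] X →L[ℝ] ℝ)
    (hω : ∀ x y, ω x y = -ω y x) (h0 : ω ≠ 0) :
    ∃ d : X × ℝ → X × ℝ → ℝ≥0, (∀ a b, d a b = d b a) ∧
      (∃ c C : ℝ≥0, 0 < c ∧ ∀ a b, c * dcc ω a b ≤ d a b ∧ (d a b : ℝ≥0∞) ≤ C * dcc ω a b) ∧
      UmbelIneq p d := by
  have hp0 : 0 < p := by linarith
  obtain ⟨c, hc, hβ⟩ := betaUse_of_property hX
  obtain ⟨lam, hlam, κ, hκ, H⟩ := umbel_real ω hp hc hβ hω
  let d : X × ℝ → X × ℝ → ℝ≥0 := fun a b => ⟨dN ω lam a b, dN_nonneg ω lam a b⟩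
  have hd : ∀ a b, ((d a b : ℝ≥0) : ℝ) = dN ω lam a b := fun a b => rfl
  have hsymm : ∀ a b, d a b = d b a := fun a b => by
    apply NNReal.eq
    rw [hd, hd, dN_symm ω lam hω]
  refine ⟨d, hsymm, ?_, ?_⟩
  · -- equivalence with the CC metric
    obtain ⟨C, hC, hcurve⟩ := exists_curve ω hω h0
    refine ⟨(⟨1 + C / lam, by positivity⟩ : ℝ≥0)⁻¹, ⟨1 + lam * √‖ω‖, by positivity⟩, ?_, ?_⟩
    · apply inv_pos.mpr
      change (0 : ℝ) < 1 + C / lam
      positivity
    · intro a b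
      set Q : ℝ≥0 := ⟨1 + C / lam, by positivity⟩ with hQ
      have hQpos : 0 < Q := by
        change (0 : ℝ) < 1 + C / lam
        positivity
      constructor
      · have h1 : dcc ω a b ≤ Q * (d a b : ℝ≥0∞) := by
          refine (hcurve a b).trans ?_
          rw [← ENNReal.coe_mul, ENNReal.ofReal_le_iff_le_toReal ENNReal.coe_ne_top,
            ENNReal.coe_toReal, NNReal.coe_mul, hsymm a b, hd]
          change _ ≤ (1 + C / lam) * dN ω lam b a
          unfold dN
          set A : ℝ := ‖b.1 - a.1‖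
          set V : ℝ := √|b.2 - a.2 - ω a.1 b.1|
          have e1 : A ≤ max A (lam * V) := le_max_left _ _
          have e2 : lam * V ≤ max A (lam * V) := le_max_right _ _
          have e3 : C * V = C / lam * (lam * V) := by field_simp
          have e4 : C / lam * (lam * V) ≤ C / lam * max A (lam * V) :=
            mul_le_mul_of_nonneg_left e2 (by positivity)
          nlinarith
        calc ((Q⁻¹ : ℝ≥0) : ℝ≥0∞) * dcc ω a b ≤ ((Q⁻¹ : ℝ≥0) : ℝ≥0∞) * (Q * (d a b : ℝ≥0∞)) := by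
              gcongr
          _ = d a b := by
              rw [← mul_assoc, ← ENNReal.coe_mul, inv_mul_cancel₀ hQpos.ne', ENNReal.coe_one,
                one_mul]
      · -- lower bound
        set P : ℝ≥0 := ⟨1 + lam * √‖ω‖, by positivity⟩ with hP
        have hPpos : 0 < P := by
          change (0 : ℝ) < 1 + lam * √‖ω‖
          positivity
        have hkey : (d a b : ℝ≥0∞) / P ≤ dcc ω a b := by
          unfold dcc
          refine le_iInf fun γ => le_iInf fun z => le_iInf fun hh => le_iInf fun hend => ?_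
          obtain ⟨hfin, hhor, hver⟩ := vertical_le ω hω hh
          set L : ℝ := (eVariationOn γ (Icc 0 1)).toReal with hL
          have hL0 : 0 ≤ L := ENNReal.toReal_nonneg
          obtain ⟨g0, z0, g1, z1⟩ := hend
          rw [g0, g1] at hhor
          rw [g0, g1, z0, z1] at hver
          rw [ENNReal.div_le_iff (by exact_mod_cast hPpos.ne') ENNReal.coe_ne_top,
            ← ENNReal.ofReal_toReal hfin, ← hL, ← ENNReal.ofReal_coe_nnreal (p := P),
            ← ENNReal.ofReal_mul hL0, ← ENNReal.ofReal_coe_nnreal (p := d a b)]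
          apply ENNReal.ofReal_le_ofReal
          rw [hsymm a b, hd]
          change dN ω lam b a ≤ L * (1 + lam * √‖ω‖)
          unfold dN
          have e5 : 0 ≤ L * (lam * √‖ω‖) := by positivity
          apply max_le
          · nlinarith
          · have e6 : √|b.2 - a.2 - ω a.1 b.1| ≤ √‖ω‖ * L := by
              calc √|b.2 - a.2 - ω a.1 b.1| ≤ √(‖ω‖ * L ^ 2) := Real.sqrt_le_sqrt hver
                _ = √‖ω‖ * L := by
                    rw [Real.sqrt_mul (norm_nonneg ω), Real.sqrt_sq hL0]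
            have e7 := mul_le_mul_of_nonneg_left e6 hlam.le
            nlinarith
        rw [ENNReal.div_le_iff (by exact_mod_cast hPpos.ne') ENNReal.coe_ne_top] at hkey
        rwa [mul_comm] at hkey
  · -- the umbel inequality
    set κ' : ℝ≥0 := ⟨κ, hκ.le⟩ with hκ'
    have hκ'pos : 0 < κ' := hκ
    set k : ℝ≥0 := (κ' / 2) ^ (1 / p) with hk
    have hkpos : 0 < k := by
      rw [hk]
      exact NNReal.rpow_pos (by positivity)
    have hkp : k ^ p = κ' / 2 := by
      rw [hk, ← NNReal.rpow_mul, one_div_mul_cancel hp0.ne', NNReal.rpow_one]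
    refine ⟨k⁻¹, by positivity, ?_⟩
    intro w z x
    have hK : (1 / ((k⁻¹ : ℝ≥0) : ℝ≥0∞)) ^ p = ((κ' / 2 : ℝ≥0) : ℝ≥0∞) := by
      rw [ENNReal.coe_inv hkpos.ne', one_div, inv_inv, ← ENNReal.coe_rpow_of_nonneg _ hp0.le, hkp]
    rw [hK]
    by_cases hsup : (⨆ n, (d (x n) z : ℝ≥0∞) ^ p) = ∞
    · rw [hsup, ENNReal.mul_top (by norm_num)]
      simp
    set Sg : ℝ≥0∞ := ⨆ n, (d (x n) z : ℝ≥0∞) ^ p with hSg
    set b : ℝ≥0 := Sg.toNNReal ^ (1 / p) with hb
    have hbp : b ^ p = Sg.toNNReal := by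
      rw [hb, ← NNReal.rpow_mul, one_div_mul_cancel hp0.ne', NNReal.rpow_one]
    have hbSg : ((b ^ p : ℝ≥0) : ℝ≥0∞) = Sg := by
      rw [hbp, ENNReal.coe_toNNReal hsup]
    have hxb : ∀ n, d (x n) z ≤ b := by
      intro n
      have h1 : ((d (x n) z : ℝ≥0∞)) ^ p ≤ Sg := le_iSup (fun n => (d (x n) z : ℝ≥0∞) ^ p) n
      rw [← hbSg, ← ENNReal.coe_rpow_of_nonneg _ hp0.le, ENNReal.coe_le_coe] at h1
      exact (NNReal.rpow_le_rpow_iff hp0).mp h1
    set T : ℝ≥0∞ := ⨅ i, liminf (fun j => (d (x i) (x j) : ℝ≥0∞) ^ p) atTop with hT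
    set a : ℝ≥0 := d w z with ha
    -- the core claim
    have core : ∀ S : ℝ≥0, (S = 0 ∨ ((S ^ p : ℝ≥0) : ℝ≥0∞) < T) →
        (1 / 2 : ℝ≥0∞) ^ p * (⨅ n, (d w (x n) : ℝ≥0∞) ^ p) + ((κ' * S ^ p : ℝ≥0) : ℝ≥0∞)
          ≤ ((1 / 2 * a ^ p + 1 / 2 * b ^ p : ℝ≥0) : ℝ≥0∞) := by
      intro S hS
      obtain ⟨n, hn⟩ := H (hmul ω (-z.1, -z.2) w) (fun n => hmul ω (-z.1, -z.2) (x n)) a b S
        (by
          rw [← dN_to_zero ω lam hω]
          exact le_rfl)
        (by
          intro n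
          rw [← dN_to_zero ω lam hω]
          exact_mod_cast hxb n)
        S.coe_nonneg
        (by
          intro hSpos i
          have hS2 : ((S ^ p : ℝ≥0) : ℝ≥0∞) < T := by
            rcases hS with h | h
            · rw [h] at hSpos; simp at hSpos
            · exact h
          have h1 : ((S ^ p : ℝ≥0) : ℝ≥0∞)
              < liminf (fun j => (d (x i) (x j) : ℝ≥0∞) ^ p) atTop :=
            lt_of_lt_of_le hS2 (iInf_le _ i)
          filter_upwards [Filter.eventually_lt_of_lt_liminf h1] with j hj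
          rw [dN_left ω lam hω]
          rw [← ENNReal.coe_rpow_of_nonneg _ hp0.le, ENNReal.coe_lt_coe] at hj
          have := ((NNReal.rpow_lt_rpow_iff hp0).mp hj).le
          exact_mod_cast this)
      rw [dN_left ω lam hω] at hn
      have h2 : (1 / 2 : ℝ≥0) ^ p * (d w (x n)) ^ p + κ' * S ^ p
          ≤ 1 / 2 * a ^ p + 1 / 2 * b ^ p := by
        rw [← NNReal.mul_rpow, ← NNReal.coe_le_coe]
        push_cast
        rw [hd]
        have h3 : (1 / 2 : ℝ) * dN ω lam w (x n) = dN ω lam w (x n) / 2 := by ring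
        rw [h3]
        exact hn
      have h4 := ENNReal.coe_le_coe.mpr h2
      refine le_trans ?_ h4
      simp only [ENNReal.coe_add, ENNReal.coe_mul, ENNReal.coe_rpow_of_nonneg _ hp0.le]
      have h5 : ((1 / 2 : ℝ≥0) : ℝ≥0∞) = 1 / 2 := by
        rw [ENNReal.coe_div (by norm_num)]
        simp
      rw [h5]
      gcongr
      exact iInf_le _ n
    have hRHS : ((1 / 2 * a ^ p + 1 / 2 * b ^ p : ℝ≥0) : ℝ≥0∞)
        = (1 / 2 : ℝ≥0∞) * (a : ℝ≥0∞) ^ p + (1 / 2 : ℝ≥0∞) * Sg := by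
      have h5 : ((1 / 2 : ℝ≥0) : ℝ≥0∞) = 1 / 2 := by
        rw [ENNReal.coe_div (by norm_num)]
        simp
      rw [ENNReal.coe_add, ENNReal.coe_mul, ENNReal.coe_mul, hbSg,
        ENNReal.coe_rpow_of_nonneg _ hp0.le, h5]
    rw [← hRHS]
    rcases eq_or_ne T 0 with hT0 | hT0
    · rw [hT0, mul_zero, add_zero]
      have := core 0 (Or.inl rfl)
      exact le_trans (le_add_right le_rfl) this
    rcases eq_or_ne T ∞ with hTtop | hTtop
    · exfalso
      set R : ℝ≥0 := 1 / 2 * a ^ p + 1 / 2 * b ^ p with hR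
      have h6 := core (((R + 1) / κ') ^ (1 / p)) (Or.inr (by rw [hTtop]; exact ENNReal.coe_lt_top))
      rw [← NNReal.rpow_mul, one_div_mul_cancel hp0.ne', NNReal.rpow_one,
        mul_div_cancel₀ _ hκ'pos.ne'] at h6
      have h7 : ((R + 1 : ℝ≥0) : ℝ≥0∞) ≤ R := le_trans (le_add_left le_rfl) h6
      rw [ENNReal.coe_le_coe] at h7
      have h8 : (R : ℝ) + 1 ≤ R := by exact_mod_cast h7
      linarith
    · set t : ℝ≥0 := T.toNNReal with ht
      have htT : (t : ℝ≥0∞) = T := ENNReal.coe_toNNReal hTtop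
      have htpos : 0 < t := by
        rw [pos_iff_ne_zero]
        intro h
        rw [h] at htT
        exact hT0 (by rw [← htT]; rfl)
      have h9 : ((t / 2) ^ (1 / p)) ^ p = t / 2 := by
        rw [← NNReal.rpow_mul, one_div_mul_cancel hp0.ne', NNReal.rpow_one]
      have h6 := core ((t / 2) ^ (1 / p)) (Or.inr (by
        rw [h9, ← htT, ENNReal.coe_lt_coe]
        exact NNReal.half_lt_self htpos.ne'))
      rw [h9] at h6
      rw [← htT, ← ENNReal.coe_mul]
      have h10 : κ' / 2 * t = κ' * (t / 2) := by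
        rw [div_mul_eq_mul_div, mul_div_assoc]
      rw [h10]
      exact h6

end Pool.Agent.Results.MP_f1e800_an.UmbelHeisenberg
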